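import Mathlib

/-!
# MP_db9399, THEOREM LT: greedy choices
-/

set_option autoImplicit false

namespace Pool.Agent.Work.MP_db9399_lt.helper22

open Finset Classical

/-- greedy choice with conflicts -/
theorem greedy {ι V : Type*} [Nonempty V] (S : Finset ι) (cand : ι → Finset V)
    (R : ι → V → ι → V → Prop) (c : ℕ) (hsym : ∀ i v j w, R i v j w → R j w i v)
    (hR : ∀ i ∈ S, ∀ j ∈ S, ∀ w, i ≠ j → ((cand i).filter (fun v => R i v j w)).card ≤ c)
    (hc : ∀ i ∈ S, c * S.card < (cand i).card + c ∧ 1 ≤ (cand i).card) :
    ∃ f : ι → V, (∀ i ∈ S, f i ∈ cand i) ∧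
      ∀ i ∈ S, ∀ j ∈ S, i ≠ j → ¬ R i (f i) j (f j) := by
  have key : ∀ T : Finset ι, T ⊆ S → ∃ f : ι → V, (∀ i ∈ T, f i ∈ cand i) ∧
      ∀ i ∈ T, ∀ j ∈ T, i ≠ j → ¬ R i (f i) j (f j) := by
    intro T
    induction T using Finset.induction_on with
    | empty =>
      intro _
      exact ⟨fun _ => Classical.arbitrary V, by simp, by simp⟩
    | insert i T hi ih =>
      intro hT
      have hTS : T ⊆ S := fun j hj => hT (Finset.mem_insert_of_mem hj)
      have hiS : i ∈ S := hT (Finset.mem_insert_self i T)
      obtain ⟨f, hf1, hf2⟩ := ih hTS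
      have h1 : ∃ v ∈ cand i, ∀ j ∈ T, ¬ R i v j (f j) := by
        by_contra hne
        push Not at hne
        have h2 : cand i ⊆ T.biUnion (fun j => (cand i).filter (fun v => R i v j (f j))) := by
          intro v hv
          obtain ⟨j, hj, hr⟩ := hne v hv
          rw [Finset.mem_biUnion]
          exact ⟨j, hj, Finset.mem_filter.mpr ⟨hv, hr⟩⟩
        have h3 : (cand i).card ≤ T.card * c := by
          refine (Finset.card_le_card h2).trans ?_
          refine Finset.card_biUnion_le_card_mul _ _ _ ?_
          intro j hj
          refine hR i hiS j (hTS hj) (f j) ?_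
          rintro rfl
          exact hi hj
        have h4 : (insert i T).card ≤ S.card := Finset.card_le_card hT
        rw [Finset.card_insert_of_notMem hi] at h4
        have h5 := (hc i hiS).1
        have h6 : c * (T.card + 1) ≤ c * S.card := Nat.mul_le_mul_left c h4
        have h7 : c * (T.card + 1) = T.card * c + c := by ring
        omega
      obtain ⟨v, hv, hvR⟩ := h1
      have hne : ∀ j ∈ T, j ≠ i := by
        rintro j hj rfl
        exact hi hj
      refine ⟨fun j => if j = i then v else f j, ?_, ?_⟩
      · intro j hj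
        rw [Finset.mem_insert] at hj
        rcases hj with rfl | hj
        · simpa using hv
        · simp only [if_neg (hne j hj)]
          exact hf1 j hj
      · intro j hj k hk hjk
        rw [Finset.mem_insert] at hj hk
        rcases hj with rfl | hj
        · rcases hk with rfl | hk
          · exact absurd rfl hjk
          · simp only [if_neg (hne k hk), if_true]
            exact hvR k hk
        · rcases hk with rfl | hk
          · simp only [if_neg (hne j hj), if_true]
            exact fun hr => hvR j hj (hsym _ _ _ _ hr)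
          · simp only [if_neg (hne j hj), if_neg (hne k hk)]
            exact hf2 j hj k hk hjk
  exact key S (fun _ h => h)

/-- injective greedy choice -/
theorem greedyInj {ι V : Type*} [Nonempty V] (S : Finset ι) (cand : ι → Finset V)
    (hc : ∀ i ∈ S, S.card ≤ (cand i).card) :
    ∃ f : ι → V, (∀ i ∈ S, f i ∈ cand i) ∧ Set.InjOn f (S : Set ι) := by
  obtain ⟨f, h1, h2⟩ := greedy S cand (fun _ v _ w => v = w) 1 (fun _ _ _ _ h => h.symm)
    (by
      intro i _ j _ w _
      rw [Finset.card_le_one]
      intro v hv v' hv'
      rw [Finset.mem_filter] at hv hv'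
      exact hv.2.trans hv'.2.symm)
    (by
      intro i hi
      have h1 := hc i hi
      have h2 : 0 < S.card := Finset.card_pos.mpr ⟨i, hi⟩
      constructor <;> omega)
  refine ⟨f, h1, ?_⟩
  intro i hi j hj hij
  by_contra hne
  exact h2 i (Finset.mem_coe.mp hi) j (Finset.mem_coe.mp hj) hne hij

end Pool.Agent.Work.MP_db9399_lt.helper22
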