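import Pool.Agent.Work.MP_db9399_lt.Base
import Pool.Agent.Work.MP_db9399_lt_helper22.Greedy

/-!
# MP_db9399, THEOREM LT: block ADJ
-/

set_option autoImplicit false
set_option linter.unusedSectionVars false

namespace Pool.Agent.Work.MP_db9399_lt.helper22

open Finset Classical

/-- pairs of adjusters -/
theorem adj_pairs (A m : ℕ) (Q : Finset ℕ) (blk : ℕ → ℕ → Prop)
    (hm : ∀ k < A, (Q.filter (fun b => blk k b)).card ≤ m) (hQ : 16 * m + A < 8 * Q.card) :
    ∀ (t : ℕ) (T : Finset ℕ), T ⊆ range A → T.card = 2 * t →
      ∃ f : ℕ → ℕ, (∀ k ∈ T, f k ∈ Q ∧ ¬ blk k (f k)) ∧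
        ∀ b ∈ Q, Even (T.filter (fun k => f k = b)).card ∧
          (T.filter (fun k => f k = b)).card ≤ 16 := by
  intro t
  induction t with
  | zero =>
    intro T _ hT
    have hT0 : T = ∅ := Finset.card_eq_zero.mp (by omega)
    subst hT0
    exact ⟨fun _ => 0, by simp, by simp⟩
  | succ t ih =>
    intro T hTA hT
    obtain ⟨k1, hk1⟩ : T.Nonempty := Finset.card_pos.mp (by omega)
    have hc1 : (T.erase k1).card = 2 * t + 1 := by
      rw [Finset.card_erase_of_mem hk1]; omega
    obtain ⟨k2, hk2⟩ : (T.erase k1).Nonempty := Finset.card_pos.mp (by omega)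
    have hk21 : k2 ≠ k1 := Finset.ne_of_mem_erase hk2
    have hk2T : k2 ∈ T := Finset.mem_of_mem_erase hk2
    set T' := (T.erase k1).erase k2 with hT'
    have hc2 : T'.card = 2 * t := by
      rw [hT', Finset.card_erase_of_mem hk2]; omega
    have hT'T : T' ⊆ T := (Finset.erase_subset _ _).trans (Finset.erase_subset _ _)
    have hT'm : ∀ k, k ∈ T' ↔ k ≠ k2 ∧ k ≠ k1 ∧ k ∈ T := by
      intro k
      rw [hT', Finset.mem_erase, Finset.mem_erase]
    obtain ⟨f, hf1, hf2⟩ := ih T' (hT'T.trans hTA) hc2
    have hT'A : T'.card ≤ A := by
      have := Finset.card_le_card (hT'T.trans hTA)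
      rwa [Finset.card_range] at this
    -- heavy colours
    set Hv := Q.filter (fun b => 16 ≤ (T'.filter (fun k => f k = b)).card) with hHv
    have hHvc : 16 * Hv.card ≤ A := by
      have h1 : ∑ b ∈ Hv, 16 ≤ ∑ b ∈ Hv, (T'.filter (fun k => f k = b)).card := by
        refine Finset.sum_le_sum fun b hb => ?_
        exact (Finset.mem_filter.mp hb).2
      have h2 : ∑ b ∈ Hv, (T'.filter (fun k => f k = b)).card ≤ T'.card := by
        rw [← Finset.card_biUnion]
        · refine Finset.card_le_card ?_
          intro k hk
          rw [Finset.mem_biUnion] at hk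
          obtain ⟨b, _, hk⟩ := hk
          exact (Finset.mem_filter.mp hk).1
        · intro b _ b' _ hne
          change Disjoint _ _
          rw [Finset.disjoint_left]
          intro k hk hk'
          exact hne ((Finset.mem_filter.mp hk).2.symm.trans (Finset.mem_filter.mp hk').2)
      rw [Finset.sum_const, smul_eq_mul] at h1
      omega
    have hlt1 : k1 < A := Finset.mem_range.mp (hTA hk1)
    have hlt2 : k2 < A := Finset.mem_range.mp (hTA hk2T)
    have hex : ∃ b ∈ Q, ¬ blk k1 b ∧ ¬ blk k2 b ∧ b ∉ Hv := by
      by_contra hne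
      push Not at hne
      have h1 : Q ⊆ (Q.filter (fun b => blk k1 b) ∪ Q.filter (fun b => blk k2 b)) ∪ Hv := by
        intro b hb
        by_cases h1 : blk k1 b
        · exact Finset.mem_union_left _ (Finset.mem_union_left _
            (Finset.mem_filter.mpr ⟨hb, h1⟩))
        · by_cases h2 : blk k2 b
          · exact Finset.mem_union_left _ (Finset.mem_union_right _
              (Finset.mem_filter.mpr ⟨hb, h2⟩))
          · exact Finset.mem_union_right _ (hne b hb h1 h2)
      have h2 := Finset.card_le_card h1
      have h3 := Finset.card_union_le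
        (Q.filter (fun b => blk k1 b) ∪ Q.filter (fun b => blk k2 b)) Hv
      have h4 := Finset.card_union_le (Q.filter (fun b => blk k1 b))
        (Q.filter (fun b => blk k2 b))
      have h5 := hm k1 hlt1
      have h6 := hm k2 hlt2
      omega
    obtain ⟨b0, hb0, hn1, hn2, hnH⟩ := hex
    have hcnt : (T'.filter (fun k => f k = b0)).card ≤ 14 := by
      have h1 : ¬ 16 ≤ (T'.filter (fun k => f k = b0)).card := fun h =>
        hnH (Finset.mem_filter.mpr ⟨hb0, h⟩)
      have h2 := (hf2 b0 hb0).1
      rcases h2 with ⟨r, hr⟩
      omega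
    refine ⟨fun k => if k = k1 ∨ k = k2 then b0 else f k, ?_, ?_⟩
    · intro k hk
      by_cases hkk : k = k1 ∨ k = k2
      · simp only [if_pos hkk]
        refine ⟨hb0, ?_⟩
        rcases hkk with rfl | rfl
        · exact hn1
        · exact hn2
      · simp only [if_neg hkk]
        push Not at hkk
        exact hf1 k ((hT'm k).mpr ⟨hkk.2, hkk.1, hk⟩)
    · intro b hb
      by_cases hbb : b = b0
      · subst hbb
        have h1 : (T.filter (fun k => (if k = k1 ∨ k = k2 then b else f k) = b)) =
            insert k1 (insert k2 (T'.filter (fun k => f k = b))) := by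
          ext k
          simp only [Finset.mem_filter, Finset.mem_insert, hT'm]
          constructor
          · rintro ⟨h1, h2⟩
            by_cases hkk : k = k1 ∨ k = k2
            · rcases hkk with h3 | h3
              · exact Or.inl h3
              · exact Or.inr (Or.inl h3)
            · rw [if_neg hkk] at h2
              push Not at hkk
              exact Or.inr (Or.inr ⟨⟨hkk.2, hkk.1, h1⟩, h2⟩)
          · rintro (h3 | h3 | h3)
            · exact ⟨h3 ▸ hk1, by rw [if_pos (Or.inl h3)]⟩
            · exact ⟨h3 ▸ hk2T, by rw [if_pos (Or.inr h3)]⟩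
            · refine ⟨h3.1.2.2, ?_⟩
              rw [if_neg]
              · exact h3.2
              · rintro (h4 | h4)
                · exact h3.1.2.1 h4
                · exact h3.1.1 h4
        have h2 : (insert k1 (insert k2 (T'.filter (fun k => f k = b)))).card =
            (T'.filter (fun k => f k = b)).card + 2 := by
          rw [Finset.card_insert_of_notMem, Finset.card_insert_of_notMem]
          · simp [hT'm]
          · simp [hT'm, hk21.symm]
        rw [h1, h2]
        have h3 := (hf2 b hb).1
        constructor
        · exact h3.add (by decide)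
        · omega
      · have h1 : (T.filter (fun k => (if k = k1 ∨ k = k2 then b0 else f k) = b)) =
            T'.filter (fun k => f k = b) := by
          ext k
          simp only [Finset.mem_filter, hT'm]
          constructor
          · rintro ⟨h1, h2⟩
            by_cases hkk : k = k1 ∨ k = k2
            · rw [if_pos hkk] at h2
              exact absurd h2.symm hbb
            · rw [if_neg hkk] at h2
              push Not at hkk
              exact ⟨⟨hkk.2, hkk.1, h1⟩, h2⟩
          · rintro ⟨⟨h3, h4, h5⟩, h6⟩
            refine ⟨h5, ?_⟩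
            rw [if_neg]
            · exact h6
            · rintro (h7 | h7)
              · exact h4 h7
              · exact h3 h7
        rw [h1]
        exact hf2 b hb

theorem stmt_ADJ : Stmt_ADJ := by
  intro A m q Q blk π hm hq hA hQ hev
  set P := Q.filter (fun b => π b) with hP
  have hPQ : P.card ≤ Q.card := Finset.card_filter_le _ _
  obtain ⟨g, hg1, hg2⟩ := greedyInj (V := ℕ) P (fun b => (range A).filter (fun k => ¬ blk k b))
    (by
      intro b hb
      have hbQ : b ∈ Q := (Finset.mem_filter.mp hb).1
      have h1 := Finset.card_filter_add_card_filter_not (s := range A) (fun k => blk k b)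
      have h2 := hq b hbQ
      rw [Finset.card_range] at h1
      omega)
  have hgA : ∀ b ∈ P, g b < A ∧ ¬ blk (g b) b := by
    intro b hb
    have h1 := Finset.mem_filter.mp (hg1 b hb)
    exact ⟨Finset.mem_range.mp h1.1, h1.2⟩
  have himA : P.image g ⊆ range A := by
    intro k hk
    rw [Finset.mem_image] at hk
    obtain ⟨b, hb, rfl⟩ := hk
    exact Finset.mem_range.mpr (hgA b hb).1
  have himc : (P.image g).card = P.card := Finset.card_image_of_injOn hg2
  have hTc : (range A \ P.image g).card = A - P.card := by
    rw [Finset.card_sdiff_of_subset himA, Finset.card_range, himc]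
  obtain ⟨t, ht⟩ : ∃ t, (range A \ P.image g).card = 2 * t := by
    rw [hTc]
    obtain ⟨r, hr⟩ := hev
    exact ⟨r - P.card, by omega⟩
  obtain ⟨f, hf1, hf2⟩ := adj_pairs A m Q blk hm hQ t (range A \ P.image g)
    Finset.sdiff_subset ht
  let iv : ℕ → ℕ := Function.invFunOn g (P : Set ℕ)
  have hiv : ∀ b ∈ P, iv (g b) = b := by
    intro b hb
    exact hg2.leftInvOn_invFunOn (Finset.mem_coe.mpr hb)
  refine ⟨fun k => if k ∈ P.image g then iv k else f k, ?_, ?_⟩
  · intro k hk
    by_cases hkk : k ∈ P.image g
    · simp only [if_pos hkk]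
      rw [Finset.mem_image] at hkk
      obtain ⟨b, hb, rfl⟩ := hkk
      rw [hiv b hb]
      exact ⟨(Finset.mem_filter.mp hb).1, (hgA b hb).2⟩
    · simp only [if_neg hkk]
      exact hf1 k (Finset.mem_sdiff.mpr ⟨Finset.mem_range.mpr hk, hkk⟩)
  · intro b hb
    have h2 := hf2 b hb
    by_cases hbP : b ∈ P
    · have h1 : (range A).filter (fun k => (if k ∈ P.image g then iv k else f k) = b) =
          insert (g b) ((range A \ P.image g).filter (fun k => f k = b)) := by
        ext k
        rw [Finset.mem_filter, Finset.mem_insert, Finset.mem_filter, Finset.mem_sdiff]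
        constructor
        · rintro ⟨h3, h4⟩
          by_cases hkk : k ∈ P.image g
          · rw [if_pos hkk] at h4
            rw [Finset.mem_image] at hkk
            obtain ⟨b', hb', rfl⟩ := hkk
            rw [hiv b' hb'] at h4
            exact Or.inl (by rw [h4])
          · rw [if_neg hkk] at h4
            exact Or.inr ⟨⟨h3, hkk⟩, h4⟩
        · rintro (h3 | h3)
          · subst h3
            refine ⟨Finset.mem_range.mpr (hgA b hbP).1, ?_⟩
            rw [if_pos (Finset.mem_image_of_mem g hbP), hiv b hbP]
          · refine ⟨h3.1.1, ?_⟩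
            rw [if_neg h3.1.2]
            exact h3.2
      have h3 : g b ∉ (range A \ P.image g).filter (fun k => f k = b) := by
        intro h
        rw [Finset.mem_filter, Finset.mem_sdiff] at h
        exact h.1.2 (Finset.mem_image_of_mem g hbP)
      rw [h1, Finset.card_insert_of_notMem h3]
      have hπ : π b := (Finset.mem_filter.mp hbP).2
      constructor
      · exact ⟨fun _ => hπ, fun _ => h2.1.add_one⟩
      · omega
    · have h1 : (range A).filter (fun k => (if k ∈ P.image g then iv k else f k) = b) =
          (range A \ P.image g).filter (fun k => f k = b) := by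
        ext k
        rw [Finset.mem_filter, Finset.mem_filter, Finset.mem_sdiff]
        constructor
        · rintro ⟨h3, h4⟩
          by_cases hkk : k ∈ P.image g
          · rw [if_pos hkk] at h4
            rw [Finset.mem_image] at hkk
            obtain ⟨b', hb', rfl⟩ := hkk
            rw [hiv b' hb'] at h4
            exact absurd (h4 ▸ hb') hbP
          · rw [if_neg hkk] at h4
            exact ⟨⟨h3, hkk⟩, h4⟩
        · rintro ⟨⟨h3, h5⟩, h4⟩
          refine ⟨h3, ?_⟩
          rw [if_neg h5]
          exact h4
      rw [h1]
      have hπ : ¬ π b := fun h => hbP (Finset.mem_filter.mpr ⟨hb, h⟩)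
      constructor
      · exact ⟨fun h => absurd h2.1 (Nat.not_even_iff_odd.mpr h), fun h => absurd h hπ⟩
      · omega

end Pool.Agent.Work.MP_db9399_lt.helper22
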