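import Pool.Agent.Work.MP_db9399_lt.Base
import Pool.Agent.Work.MP_db9399_lt_helper22.Greedy

/-!
# MP_db9399, THEOREM LT: block SPEC
-/

set_option autoImplicit false
set_option linter.unusedSectionVars false

namespace Pool.Agent.Work.MP_db9399_lt.helper22

open Finset Classical
open Pool.Agent.Work.MP_db9399_all (nb)
open Pool.Agent.Work.MP_db9399_nc (nn PEC Mts mem_nb mem_nn)

universe u

/-- preimages of a vertex under an injective function -/
theorem card_pre_le_one {V : Type*} {S : Finset ℕ} {f : ℕ → V} (hf : Set.InjOn f (S : Set ℕ))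
    (v : V) : (S.filter (fun b => f b = v)).card ≤ 1 := by
  rw [Finset.card_le_one]
  intro b hb b' hb'
  rw [Finset.mem_filter] at hb hb'
  exact hf (Finset.mem_coe.mpr hb.1) (Finset.mem_coe.mpr hb'.1) (hb.2.trans hb'.2.symm)

theorem stmt_SPEC : Stmt_SPEC.{u} := by
  intro V _ G d x y h s F p a C H
  have : Nonempty V := H.ne
  have hodC : ∀ i, ∀ b ∈ od F p C i, b ∈ C i := fun i b hb => (mem_od.mp hb).1
  have hodc : ∀ i, (od F p C i).card + h ≤ 2 * s := by
    intro i
    have h1 : (od F p C i).card ≤ (C i).card := Finset.card_le_card (fun b hb => hodC i b hb)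
    have h2 := H.Ccard i
    omega
  have hxh := H.xh
  have hh1 := H.h1
  have hyh := H.yh
  have hdh := H.hd
  obtain ⟨_, _, hs7, _⟩ := H.s_bd
  norm_num at hxh hh1 hdh
  -- the index of a colour
  have huniq : ∀ i j b, b ∈ od F p C i → b ∈ od F p C j → i = j := by
    intro i j b hi hj
    by_contra hne
    exact Finset.disjoint_left.mp (H.Cdis i j hne) (hodC i b hi) (hodC j b hj)
  let ix : ℕ → Fin 3 := fun b => if b ∈ od F p C 0 then 0 else if b ∈ od F p C 1 then 1 else 2
  have hix : ∀ i, ∀ b ∈ od F p C i, ix b = i := by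
    intro i b hb
    by_cases h0 : b ∈ od F p C 0
    · simp only [ix, if_pos h0]
      exact huniq _ _ b h0 hb
    · by_cases h1 : b ∈ od F p C 1
      · simp only [ix, if_neg h0, if_pos h1]
        exact huniq _ _ b h1 hb
      · simp only [ix, if_neg h0, if_neg h1]
        fin_cases i
        · exact absurd hb h0
        · exact absurd hb h1
        · rfl
  -- the vertices sv
  have hsv : ∀ i : Fin 3, ∃ f : ℕ → V, (∀ b ∈ od F p C i, f b ∈ pt p i) ∧
      Set.InjOn f (od F p C i : Set ℕ) := by
    intro i
    refine greedyInj _ _ ?_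
    intro b _
    have h1 := hodc i
    have h2 := H.pt_ge i
    omega
  choose fv hfv1 hfv2 using hsv
  let sv : ℕ → V := fun b => fv (ix b) b
  have hsve : ∀ i, ∀ b ∈ od F p C i, sv b = fv i b := by
    intro i b hb
    simp only [sv, hix i b hb]
  have hsvp : ∀ i, ∀ b ∈ od F p C i, p (sv b) = i := by
    intro i b hb
    rw [hsve i b hb]
    exact mem_pt.mp (hfv1 i b hb)
  have hsvi : ∀ i, Set.InjOn sv (od F p C i : Set ℕ) := by
    intro i b hb b' hb' he
    rw [hsve i b (Finset.mem_coe.mp hb), hsve i b' (Finset.mem_coe.mp hb')] at he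
    exact hfv2 i hb hb' he
  -- the vertices su
  have hsu : ∀ i : Fin 3, ∃ f : ℕ → V, (∀ b ∈ od F p C i,
      f b ∈ (pt p (i + 1)).filter (fun v => G.Adj v (sv b) ∧ b ∉ F v)) ∧
      Set.InjOn f (od F p C i : Set ℕ) := by
    intro i
    refine greedyInj _ _ ?_
    intro b hb
    have h1 := hodc i
    have h2 := H.pt_ge (i + 1)
    have h3 : pt p (i + 1) ⊆ (pt p (i + 1)).filter (fun v => G.Adj v (sv b) ∧ b ∉ F v) ∪
        (nn G univ (sv b) ∪ us F b) := by
      intro v hv
      by_cases ha : G.Adj v (sv b)
      · by_cases hF : b ∈ F v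
        · exact Finset.mem_union_right _ (Finset.mem_union_right _ (mem_us.mpr hF))
        · exact Finset.mem_union_left _ (Finset.mem_filter.mpr ⟨hv, ha, hF⟩)
      · refine Finset.mem_union_right _ (Finset.mem_union_left _ ?_)
        rw [mem_nn]
        refine ⟨Finset.mem_univ _, ?_, fun h => ha h.symm⟩
        rintro rfl
        have h5 := mem_pt.mp hv
        rw [hsvp i b hb] at h5
        revert h5
        fin_cases i <;> decide
    have h4 := Finset.card_le_card h3
    have h5 := Finset.card_union_le ((pt p (i + 1)).filter (fun v => G.Adj v (sv b) ∧ b ∉ F v))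
      (nn G univ (sv b) ∪ us F b)
    have h6 := Finset.card_union_le (nn G univ (sv b)) (us F b)
    have h7 := H.inn (sv b)
    have h8 := H.load b
    omega
  choose fu hfu1 hfu2 using hsu
  let su : ℕ → V := fun b => fu (ix b) b
  have hsue : ∀ i, ∀ b ∈ od F p C i, su b = fu i b := by
    intro i b hb
    simp only [su, hix i b hb]
  have hsum : ∀ i, ∀ b ∈ od F p C i,
      su b ∈ (pt p (i + 1)).filter (fun v => G.Adj v (sv b) ∧ b ∉ F v) := by
    intro i b hb
    rw [hsue i b hb]
    exact hfu1 i b hb
  have hsui : ∀ i, Set.InjOn su (od F p C i : Set ℕ) := by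
    intro i b hb b' hb' he
    rw [hsue i b (Finset.mem_coe.mp hb), hsue i b' (Finset.mem_coe.mp hb')] at he
    exact hfu2 i hb hb' he
  -- the adjusters
  obtain ⟨e1, he1, he1i⟩ := greedyInj (V := V) (range (4 * h)) (fun _ => pt p 0) (by
    intro k _
    rw [Finset.card_range]
    have h2 := H.pt_ge 0
    omega)
  let bad : V → Finset V := fun v => (univ : Finset (Fin 3)).biUnion (fun i =>
    ((od F p C i).filter (fun b => su b = v)).image sv ∪
      ((od F p C i).filter (fun b => sv b = v)).image su)
  have hbad : ∀ v, (bad v).card ≤ 6 := by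
    intro v
    refine (Finset.card_biUnion_le_card_mul _ _ 2 ?_).trans ?_
    · intro i _
      refine (Finset.card_union_le _ _).trans ?_
      have h1 := (Finset.card_image_le (s := (od F p C i).filter (fun b => su b = v))
        (f := sv)).trans (card_pre_le_one (hsui i) v)
      have h2 := (Finset.card_image_le (s := (od F p C i).filter (fun b => sv b = v))
        (f := su)).trans (card_pre_le_one (hsvi i) v)
      omega
    · simp
  obtain ⟨e2, he2, he2i⟩ := greedyInj (V := V) (range (4 * h))
    (fun k => (pt p (if k < 2 * h then 1 else 2)).filter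
      (fun v => G.Adj (e1 k) v ∧ v ∉ bad (e1 k))) (by
    intro k hk
    rw [Finset.card_range]
    set j : Fin 3 := if k < 2 * h then 1 else 2 with hj
    have hj0 : j ≠ 0 := by
      rw [hj]; split_ifs <;> decide
    have h2 := H.pt_ge j
    have h3 : pt p j ⊆ (pt p j).filter (fun v => G.Adj (e1 k) v ∧ v ∉ bad (e1 k)) ∪
        (nn G univ (e1 k) ∪ bad (e1 k)) := by
      intro v hv
      by_cases ha : G.Adj (e1 k) v
      · by_cases hF : v ∈ bad (e1 k)
        · exact Finset.mem_union_right _ (Finset.mem_union_right _ hF)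
        · exact Finset.mem_union_left _ (Finset.mem_filter.mpr ⟨hv, ha, hF⟩)
      · refine Finset.mem_union_right _ (Finset.mem_union_left _ ?_)
        rw [mem_nn]
        refine ⟨Finset.mem_univ _, ?_, fun h => ha h⟩
        rintro rfl
        have h5 := mem_pt.mp hv
        have h6 := mem_pt.mp (he1 k hk)
        exact hj0 (h5.symm.trans h6)
    have h4 := Finset.card_le_card h3
    have h5 := Finset.card_union_le
      ((pt p j).filter (fun v => G.Adj (e1 k) v ∧ v ∉ bad (e1 k)))
      (nn G univ (e1 k) ∪ bad (e1 k))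
    have h6 := Finset.card_union_le (nn G univ (e1 k)) (bad (e1 k))
    have h7 := H.inn (e1 k)
    have h8 := hbad (e1 k)
    omega)
  refine ⟨su, sv, e1, e2, ?_⟩
  refine
    { vp := hsvp
      up := fun i b hb => mem_pt.mp (Finset.mem_filter.mp (hsum i b hb)).1
      adj := fun i b hb => (Finset.mem_filter.mp (hsum i b hb)).2.1
      uF := fun i b hb => (Finset.mem_filter.mp (hsum i b hb)).2.2
      vinj := hsvi
      uinj := hsui
      p1 := fun k hk => mem_pt.mp (he1 k (Finset.mem_range.mpr hk))
      p2 := ?_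
      p3 := ?_
      ea := fun k hk => (Finset.mem_filter.mp (he2 k (Finset.mem_range.mpr hk))).2.1
      i1 := he1i
      i2 := he2i
      es := ?_ }
  · intro k hk
    have h1 := (Finset.mem_filter.mp (he2 k (Finset.mem_range.mpr (by omega)))).1
    rw [if_pos hk] at h1
    exact mem_pt.mp h1
  · intro k hk hk'
    have h1 := (Finset.mem_filter.mp (he2 k (Finset.mem_range.mpr (by omega)))).1
    rw [if_neg (by omega)] at h1
    exact mem_pt.mp h1
  · intro k hk i b hb
    have h1 := (Finset.mem_filter.mp (he2 k (Finset.mem_range.mpr hk))).2.2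
    constructor
    · rintro ⟨h2, h3⟩
      apply h1
      rw [Finset.mem_biUnion]
      refine ⟨i, Finset.mem_univ _, Finset.mem_union_left _ ?_⟩
      rw [Finset.mem_image]
      exact ⟨b, Finset.mem_filter.mpr ⟨hb, h2.symm⟩, h3.symm⟩
    · rintro ⟨h2, h3⟩
      apply h1
      rw [Finset.mem_biUnion]
      refine ⟨i, Finset.mem_univ _, Finset.mem_union_right _ ?_⟩
      rw [Finset.mem_image]
      exact ⟨b, Finset.mem_filter.mpr ⟨hb, h2.symm⟩, h3.symm⟩

end Pool.Agent.Work.MP_db9399_lt.helper22
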