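import Pool.Agent.Work.MP_db9399_lt.Base
import Pool.Agent.Work.MP_db9399_lt_helper22.Greedy

/-!
# MP_db9399, THEOREM LT: blocks XSEL and XSEL2
-/

set_option autoImplicit false
set_option linter.unusedSectionVars false

namespace Pool.Agent.Work.MP_db9399_lt.helper22

open Finset Classical
open Pool.Agent.Work.MP_db9399_all (nb)
open Pool.Agent.Work.MP_db9399_nc (nn PEC Mts mem_nb mem_nn)

universe u

/-- the number of pairs `(b, i)`, `b ∈ Q`, with `τ b i` -/
theorem card_items (Q : Finset ℕ) (τ : ℕ → Fin 3 → Prop) :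
    ((Q ×ˢ (univ : Finset (Fin 3))).filter (fun e => τ e.1 e.2)).card ≤ 3 * Q.card := by
  refine (Finset.card_filter_le _ _).trans ?_
  rw [Finset.card_product]
  simp [mul_comm]

/-- the targets are realised -/
theorem num_image {V : Type*} (p : V → Fin 3) (b : ℕ) (τ : ℕ → Fin 3 → Prop)
    (f : ℕ × Fin 3 → V) (hf : ∀ i, τ b i → p (f (b, i)) = i) (i : Fin 3) :
    ((((univ : Finset (Fin 3)).filter (fun i => τ b i)).image (fun i => f (b, i))).filter
      (fun v => p v = i)).card = if τ b i then 1 else 0 := by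
  by_cases hi : τ b i
  · rw [if_pos hi, Finset.card_eq_one]
    refine ⟨f (b, i), ?_⟩
    ext v
    simp only [Finset.mem_filter, Finset.mem_image, Finset.mem_univ, true_and,
      Finset.mem_singleton]
    constructor
    · rintro ⟨⟨j, hj, rfl⟩, hp⟩
      rw [hf j hj] at hp
      rw [hp]
    · rintro rfl
      exact ⟨⟨i, hi, rfl⟩, hf i hi⟩
  · rw [if_neg hi, Finset.card_eq_zero]
    ext v
    simp only [Finset.mem_filter, Finset.mem_image, Finset.mem_univ, true_and,
      Finset.notMem_empty, iff_false]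
    rintro ⟨⟨j, hj, rfl⟩, hp⟩
    rw [hf j hj] at hp
    exact hi (hp ▸ hj)

theorem stmt_XSEL : Stmt_XSEL.{u} := by
  intro V _ G d x y h s F p a C0 C Q1 Q2 su sv e1 e2 N τ H HP
  have : Nonempty V := H.ne
  have hxh := H.xh
  have hh1 := H.h1
  have hyh := H.yh
  have hdh := H.hd
  obtain ⟨_, _, hs7, _⟩ := H.s_bd
  norm_num at hxh hh1 hdh
  have hq1 := HP.q1
  have hinv : ∀ b ∈ Q1, ∀ v, N b (N b v) = v := fun b hb v =>
    HP.mts.inv b (Finset.mem_union_right _ hb) v
  set S := (Q1 ×ˢ (univ : Finset (Fin 3))).filter (fun e => τ e.1 e.2) with hS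
  have hSc : S.card ≤ 6 * h := by
    have := card_items Q1 τ
    rw [← hS] at this
    omega
  have hSm : ∀ e : ℕ × Fin 3, e ∈ S ↔ e.1 ∈ Q1 ∧ τ e.1 e.2 := by
    intro e
    rw [hS, Finset.mem_filter, Finset.mem_product]
    simp
  obtain ⟨f, hf1, hf2⟩ := greedy (V := V) S
    (fun e => (pt p e.2).filter (fun v => e.1 ∉ F v))
    (fun e v e' w => v = w ∨ N e.1 v = N e'.1 w) 2
    (by
      intro e v e' w hh
      rcases hh with hh | hh
      · exact Or.inl hh.symm
      · exact Or.inr hh.symm)
    (by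
      intro e he e' _ w _
      refine (Finset.card_le_card (t := {w, N e.1 (N e'.1 w)}) ?_).trans Finset.card_le_two
      intro v hv
      replace hv := @Finset.mem_filter _ _ (_) _ _ |>.mp hv
      rw [Finset.mem_insert, Finset.mem_singleton]
      rcases hv.2 with hh | hh
      · exact Or.inl hh
      · refine Or.inr ?_
        rw [← hh]
        exact (hinv e.1 ((hSm e).mp he).1 v).symm)
    (by
      intro e _
      have h3 : pt p e.2 ⊆ (pt p e.2).filter (fun v => e.1 ∉ F v) ∪ us F e.1 := by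
        intro v hv
        by_cases hF : e.1 ∈ F v
        · exact Finset.mem_union_right _ (mem_us.mpr hF)
        · exact Finset.mem_union_left _ (Finset.mem_filter.mpr ⟨hv, hF⟩)
      have h4 := Finset.card_le_card h3
      have h5 := Finset.card_union_le ((pt p e.2).filter (fun v => e.1 ∉ F v)) (us F e.1)
      have h6 := H.load e.1
      have h7 := H.pt_ge e.2
      constructor <;> omega)
  have hfp : ∀ b ∈ Q1, ∀ i, τ b i → p (f (b, i)) = i := by
    intro b hb i hi
    exact mem_pt.mp (Finset.mem_filter.mp (hf1 (b, i) ((hSm _).mpr ⟨hb, hi⟩))).1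
  refine ⟨fun b => ((univ : Finset (Fin 3)).filter (fun i => τ b i)).image (fun i => f (b, i)),
    ?_, ?_⟩
  · refine { XF := ?_, dis := ?_, num := ?_ }
    · intro b hb v hv
      rw [Finset.mem_image] at hv
      obtain ⟨i, hi, rfl⟩ := hv
      exact (Finset.mem_filter.mp (hf1 (b, i)
        ((hSm _).mpr ⟨hb, (Finset.mem_filter.mp hi).2⟩))).2
    · intro b hb b' hb' hne
      rw [Finset.disjoint_left]
      intro v hv hv'
      rw [Finset.mem_image] at hv hv'
      obtain ⟨i, hi, hvi⟩ := hv
      obtain ⟨j, hj, hvj⟩ := hv'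
      refine hf2 (b, i) ((hSm _).mpr ⟨hb, (Finset.mem_filter.mp hi).2⟩) (b', j)
        ((hSm _).mpr ⟨hb', (Finset.mem_filter.mp hj).2⟩) ?_ (Or.inl (hvi.trans hvj.symm))
      intro he
      exact hne (congrArg Prod.fst he)
    · intro b hb i
      exact num_image p b τ f (hfp b hb) i
  · intro v
    rw [Finset.card_le_one]
    intro b hb b' hb'
    rw [Finset.mem_filter] at hb hb'
    by_contra hne
    obtain ⟨hbQ, _, hb2⟩ := hb
    obtain ⟨hbQ', _, hb2'⟩ := hb'
    rw [Finset.mem_image] at hb2 hb2'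
    obtain ⟨i, hi, hvi⟩ := hb2
    obtain ⟨j, hj, hvj⟩ := hb2'
    refine hf2 (b, i) ((hSm _).mpr ⟨hbQ, (Finset.mem_filter.mp hi).2⟩) (b', j)
      ((hSm _).mpr ⟨hbQ', (Finset.mem_filter.mp hj).2⟩) ?_ (Or.inr ?_)
    · intro he
      exact hne (congrArg Prod.fst he)
    · show N b (f (b, i)) = N b' (f (b', j))
      rw [hvi, hvj, hinv b hbQ, hinv b' hbQ']

theorem stmt_XSEL2 : Stmt_XSEL2.{u} := by
  intro V _ G d x y h s F p a C0 C Q1 Q2 su sv e1 e2 N M K τ X H HP HX HL
  have : Nonempty V := H.ne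
  have hxh := H.xh
  have hh1 := H.h1
  have hyh := H.yh
  have hdh := H.hd
  obtain ⟨_, _, hs7, _⟩ := H.s_bd
  norm_num at hxh hh1 hdh
  have hq1 := HP.q1
  have hq3 := HP.q3
  have h12 := HP.d12
  -- the chosen vertices
  set U := Q1.biUnion X with hU
  have hUc : U.card ≤ 6 * h := by
    refine (Finset.card_biUnion_le_card_mul _ _ 3 ?_).trans (by omega)
    intro b hb
    have h1 : (X b).card = ∑ i : Fin 3, ((X b).filter (fun v => p v = i)).card :=
      Finset.card_eq_sum_card_fiberwise (fun v _ => Finset.mem_univ (p v))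
    rw [h1]
    refine (Finset.sum_le_card_nsmul _ _ 1 ?_).trans (by simp)
    intro i _
    rw [HX.num b hb i]
    split_ifs <;> omega
  set S := (Q2 ×ˢ (univ : Finset (Fin 3))).filter (fun e => τ e.1 e.2) with hS
  have hSc : 100 * S.card ≤ 306 * h := by
    have := card_items Q2 τ
    rw [← hS] at this
    omega
  have hSm : ∀ e : ℕ × Fin 3, e ∈ S ↔ e.1 ∈ Q2 ∧ τ e.1 e.2 := by
    intro e
    rw [hS, Finset.mem_filter, Finset.mem_product]
    simp
  obtain ⟨f, hf1, hf2⟩ := greedyInj (V := V) S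
    (fun e => (pt p e.2).filter (fun v => e.1 ∉ F v ∧ K e.1 v = v ∧ v ∉ U))
    (by
      intro e he
      have h3 : pt p e.2 ⊆ (pt p e.2).filter (fun v => e.1 ∉ F v ∧ K e.1 v = v ∧ v ∉ U) ∪
          (us F e.1 ∪ (univ.filter (fun v => K e.1 v ≠ v) ∪ U)) := by
        intro v hv
        by_cases hF : e.1 ∈ F v
        · exact Finset.mem_union_right _ (Finset.mem_union_left _ (mem_us.mpr hF))
        · by_cases hK : K e.1 v = v
          · by_cases hvU : v ∈ U
            · exact Finset.mem_union_right _ (Finset.mem_union_right _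
                (Finset.mem_union_right _ hvU))
            · exact Finset.mem_union_left _ (Finset.mem_filter.mpr ⟨hv, hF, hK, hvU⟩)
          · exact Finset.mem_union_right _ (Finset.mem_union_right _
              (Finset.mem_union_left _ (Finset.mem_filter.mpr ⟨Finset.mem_univ _, hK⟩)))
      have h4 := Finset.card_le_card h3
      have h5 := Finset.card_union_le
        ((pt p e.2).filter (fun v => e.1 ∉ F v ∧ K e.1 v = v ∧ v ∉ U))
        (us F e.1 ∪ (univ.filter (fun v => K e.1 v ≠ v) ∪ U))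
      have h6 := Finset.card_union_le (us F e.1) (univ.filter (fun v => K e.1 v ≠ v) ∪ U)
      have h7 := Finset.card_union_le (univ.filter (fun v => K e.1 v ≠ v)) U
      have h8 := H.load e.1
      have h9 := H.pt_ge e.2
      have h10 := HL.sz e.1 ((hSm e).mp he).1
      omega)
  have hfp : ∀ b ∈ Q2, ∀ i, τ b i → p (f (b, i)) = i := by
    intro b hb i hi
    exact mem_pt.mp (Finset.mem_filter.mp (hf1 (b, i) ((hSm _).mpr ⟨hb, hi⟩))).1
  have hn1 : ∀ b ∈ Q2, b ∉ Q1 := fun b hb hb' => Finset.disjoint_left.mp h12 hb' hb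
  have hmem : ∀ b ∈ Q2, ∀ v ∈ ((univ : Finset (Fin 3)).filter (fun i => τ b i)).image
      (fun i => f (b, i)), b ∉ F v ∧ K b v = v ∧ v ∉ U := by
    intro b hb v hv
    rw [Finset.mem_image] at hv
    obtain ⟨i, hi, rfl⟩ := hv
    exact (Finset.mem_filter.mp (hf1 (b, i)
      ((hSm _).mpr ⟨hb, (Finset.mem_filter.mp hi).2⟩))).2
  refine ⟨fun b => if b ∈ Q1 then X b else
    ((univ : Finset (Fin 3)).filter (fun i => τ b i)).image (fun i => f (b, i)), ?_, ?_, ?_⟩
  · refine { XF := ?_, dis := ?_, num := ?_ }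
    · intro b hb v hv
      by_cases hb1 : b ∈ Q1
      · simp only [if_pos hb1] at hv
        exact HX.XF b hb1 v hv
      · simp only [if_neg hb1] at hv
        have hb2 : b ∈ Q2 := (Finset.mem_union.mp hb).resolve_left hb1
        exact (hmem b hb2 v hv).1
    · intro b hb b' hb' hne
      rw [Finset.disjoint_left]
      intro v hv hv'
      by_cases hb1 : b ∈ Q1
      · simp only [if_pos hb1] at hv
        by_cases hb1' : b' ∈ Q1
        · simp only [if_pos hb1'] at hv'
          exact Finset.disjoint_left.mp (HX.dis b hb1 b' hb1' hne) hv hv'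
        · simp only [if_neg hb1'] at hv'
          have hb2' : b' ∈ Q2 := (Finset.mem_union.mp hb').resolve_left hb1'
          exact (hmem b' hb2' v hv').2.2 (Finset.mem_biUnion.mpr ⟨b, hb1, hv⟩)
      · simp only [if_neg hb1] at hv
        have hb2 : b ∈ Q2 := (Finset.mem_union.mp hb).resolve_left hb1
        by_cases hb1' : b' ∈ Q1
        · simp only [if_pos hb1'] at hv'
          exact (hmem b hb2 v hv).2.2 (Finset.mem_biUnion.mpr ⟨b', hb1', hv'⟩)
        · simp only [if_neg hb1'] at hv'
          have hb2' : b' ∈ Q2 := (Finset.mem_union.mp hb').resolve_left hb1'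
          rw [Finset.mem_image] at hv hv'
          obtain ⟨i, hi, hvi⟩ := hv
          obtain ⟨j, hj, hvj⟩ := hv'
          have h1 := hf2 (Finset.mem_coe.mpr ((hSm (b, i)).mpr
            ⟨hb2, (Finset.mem_filter.mp hi).2⟩)) (Finset.mem_coe.mpr ((hSm (b', j)).mpr
            ⟨hb2', (Finset.mem_filter.mp hj).2⟩)) (hvi.trans hvj.symm)
          exact hne (congrArg Prod.fst h1)
    · intro b hb i
      by_cases hb1 : b ∈ Q1
      · simp only [if_pos hb1]
        exact HX.num b hb1 i
      · simp only [if_neg hb1]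
        have hb2 : b ∈ Q2 := (Finset.mem_union.mp hb).resolve_left hb1
        exact num_image p b τ f (hfp b hb2) i
  · intro b hb
    simp only [if_pos hb]
  · intro b hb v hv
    simp only [if_neg (hn1 b hb)] at hv
    exact (hmem b hb v hv).2.1

end Pool.Agent.Work.MP_db9399_lt.helper22
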